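import Pool.Agent.Lib.helper11.ETROrth

namespace Pool.Agent.Results.MP_e14cd3_lc.Orth3

open Pool.Agent.Cx

/-- orthogonal representation in three-space by pairwise non-collinear nonzero vectors -/
def HasRep {V : Type} (G : SimpleGraph V) : Prop :=
  ∃ φ : V → Fin 3 → ℝ, (∀ v, φ v ≠ 0) ∧ (∀ u v, u ≠ v → ∀ t : ℝ, φ u ≠ t • φ v) ∧
    ∀ u v, G.Adj u v → φ u ⬝ᵥ φ v = 0

theorem result : ERHard (Lang fun A : List (List Bool) => IsGraph A ∧ HasRep (graphOf A)) := by
  obtain ⟨g, hg, h⟩ := rh_orth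
  refine RH.erHard ⟨g, hg, fun s => (h s).2.2.trans (Iff.trans ?_ (and_iff_right (h s).1).symm)⟩
  refine exists_congr fun φ => and_congr_right fun h0 => and_congr ?_ ?_
  · simp only [ne_eq, par_iff (h0 _), not_exists]
  · simp only [ip, dotProduct, Fin.sum_univ_three]

end Pool.Agent.Results.MP_e14cd3_lc.Orth3
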